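import Pool.Agent.Y714.KF.Stm

set_option autoImplicit false
set_option linter.unusedSectionVars false

/-! KF-NUL. -/

namespace Pool.Agent.Y179.KF

open Pool.Agent.Y714.KF
open NumberField FractionalIdeal Module Finset MeasureTheory ComplexConjugate
open scoped nonZeroDivisors

section levels

variable {ι : Type} [Fintype ι]

theorem null_of_levels (A : Set (ι ⊕ ι → ℝ)) (g : (ι ⊕ ι → ℝ) → ℝ) (hg : Measurable g)
    (φ : ℝ → ℝ) (hφ : Set.InjOn φ (Set.Ioi 0)) (L : ℝ → (ι ⊕ ι → ℝ) → (ι ⊕ ι → ℝ))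
    (hL : ∀ t : ℝ, 0 < t → ∀ S : Set (ι ⊕ ι → ℝ), volume S = 0 → volume (L t ⁻¹' S) = 0)
    (h : ∀ t : ℝ, 0 < t → ∀ u ∈ A, g (L t u) = φ t) : volume A = 0 := by
  by_contra hne
  have hcount := Measure.countable_meas_level_set_pos (μ := (volume : Measure (ι ⊕ ι → ℝ))) hg
  have hsub : φ '' (Set.Ioi 0) ⊆ {t : ℝ | 0 < volume {a | g a = t}} := by
    rintro _ ⟨t, ht, rfl⟩
    rw [Set.mem_setOf_eq, pos_iff_ne_zero]
    intro h0
    have h1 := hL t ht _ h0
    exact hne (measure_mono_null (fun u hu => h t ht u hu) h1)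
  have h2 : (Set.Ioi (0 : ℝ)).Countable :=
    Set.countable_of_injective_of_countable_image hφ (hcount.mono hsub)
  have h3 := h2.measure_zero (volume : Measure ℝ)
  rw [Real.volume_Ioi] at h3
  exact ENNReal.top_ne_zero h3

/-- a matrix acting on pairs of vectors -/
def mt (a b c d : ℝ) : (ι ⊕ ι → ℝ) →ₗ[ℝ] (ι ⊕ ι → ℝ) where
  toFun u := Sum.elim (fun i => a * u (Sum.inl i) + b * u (Sum.inr i))
    (fun i => c * u (Sum.inl i) + d * u (Sum.inr i))
  map_add' u v := by
    funext i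
    rcases i with i | i <;> simp <;> ring
  map_smul' t u := by
    funext i
    rcases i with i | i <;> simp <;> ring

theorem mt_mt (a b c d a' b' c' d' : ℝ) (h1 : a' * a + b' * c = 1) (h2 : a' * b + b' * d = 0)
    (h3 : c' * a + d' * c = 0) (h4 : c' * b + d' * d = 1) (u : ι ⊕ ι → ℝ) :
    mt a' b' c' d' (mt a b c d u) = u := by
  funext i
  rcases i with i | i
  · simp only [mt, LinearMap.coe_mk, AddHom.coe_mk, Sum.elim_inl, Sum.elim_inr]
    linear_combination (u (Sum.inl i)) * h1 + (u (Sum.inr i)) * h2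
  · simp only [mt, LinearMap.coe_mk, AddHom.coe_mk, Sum.elim_inl, Sum.elim_inr]
    linear_combination (u (Sum.inl i)) * h3 + (u (Sum.inr i)) * h4

/-- the equivalence given by an invertible matrix -/
noncomputable def mte (a b c d : ℝ) (h : a * d - b * c ≠ 0) : (ι ⊕ ι → ℝ) ≃ₗ[ℝ] (ι ⊕ ι → ℝ) where
  __ := mt a b c d
  invFun := mt (d / (a * d - b * c)) (-b / (a * d - b * c)) (-c / (a * d - b * c))
    (a / (a * d - b * c))
  left_inv u := by
    apply mt_mt
    · have : d / (a * d - b * c) * a + -b / (a * d - b * c) * c =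
          (a * d - b * c) / (a * d - b * c) := by ring
      rw [this, div_self h]
    · ring
    · ring
    · have : -c / (a * d - b * c) * b + a / (a * d - b * c) * d =
          (a * d - b * c) / (a * d - b * c) := by ring
      rw [this, div_self h]
  right_inv u := by
    apply mt_mt
    · have : a * (d / (a * d - b * c)) + b * (-c / (a * d - b * c)) =
          (a * d - b * c) / (a * d - b * c) := by ring
      rw [this, div_self h]
    · ring
    · ring
    · have : c * (-b / (a * d - b * c)) + d * (a / (a * d - b * c)) =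
          (a * d - b * c) / (a * d - b * c) := by ring
      rw [this, div_self h]

theorem mt_null (a b c d : ℝ) (h : a * d - b * c ≠ 0) (S : Set (ι ⊕ ι → ℝ))
    (hS : volume S = 0) : volume ((mt a b c d : (ι ⊕ ι → ℝ) → (ι ⊕ ι → ℝ)) ⁻¹' S) = 0 := by
  have h1 := Measure.addHaar_preimage_linearEquiv (volume : Measure (ι ⊕ ι → ℝ)) (mte a b c d h) S
  rw [hS, mul_zero] at h1
  exact h1

end levels

section

variable {K : Type} [Field K] [NumberField K] {ι : Type} [Fintype ι] [DecidableEq ι]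

theorem mt_inl (a b c d : ℝ) (u : ι ⊕ ι → ℝ) : (fun i => mt a b c d u (Sum.inl i)) =
    a • (fun i => u (Sum.inl i)) + b • (fun i => u (Sum.inr i)) := rfl

theorem mt_inr (a b c d : ℝ) (u : ι ⊕ ι → ℝ) : (fun i => mt a b c d u (Sum.inr i)) =
    c • (fun i => u (Sum.inl i)) + d • (fun i => u (Sum.inr i)) := rfl

theorem rw2_mt (B : Basis ι ℚ K) (a b c d : ℝ) (u : ι ⊕ ι → ℝ) :
    rw2 B (mt a b c d u) = fun σ => gl a b c d (rw2 B u σ) := by
  funext σ
  unfold rw2 rv gl
  rw [mt_inl, mt_inr, sg_add, sg_add, sg_smul, sg_smul, sg_smul, sg_smul]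

theorem continuous_bf (B : Basis ι ℚ K) {X : Type} [TopologicalSpace X] {f g : X → ι → ℝ}
    (hf : Continuous f) (hg : Continuous g) : Continuous fun u => bf B (f u) (g u) := by
  unfold bf
  exact continuous_finset_sum _ fun σ _ => Complex.continuous_re.comp
    (((continuous_sg B σ).comp hf).mul (Complex.continuous_conj.comp ((continuous_sg B σ).comp hg)))

theorem continuous_inl : Continuous fun (u : ι ⊕ ι → ℝ) (i : ι) => u (Sum.inl i) :=
  continuous_pi fun i => continuous_apply (Sum.inl i)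

theorem continuous_inr : Continuous fun (u : ι ⊕ ι → ℝ) (i : ι) => u (Sum.inr i) :=
  continuous_pi fun i => continuous_apply (Sum.inr i)

theorem continuous_rw2 (B : Basis ι ℚ K) : Continuous (rw2 B) := by
  unfold rw2 rv
  exact continuous_pi fun σ => ((continuous_sg B σ).comp continuous_inl).prodMk
    ((continuous_sg B σ).comp continuous_inr)

end

section main

variable {K : Type} [Field K] [NumberField K]

theorem nul (h1 : S_CCC K) (h2 : S_BRN K) : S_NUL K := by
  classical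
  intro hodd hn B
  -- abbreviations
  let q1 : (Fin (finrank ℚ K) ⊕ Fin (finrank ℚ K) → ℝ) → ℝ := fun u => bf B (fun i => u (Sum.inl i)) (fun i => u (Sum.inl i))
  let q2 : (Fin (finrank ℚ K) ⊕ Fin (finrank ℚ K) → ℝ) → ℝ := fun u => bf B (fun i => u (Sum.inr i)) (fun i => u (Sum.inr i))
  let s : (Fin (finrank ℚ K) ⊕ Fin (finrank ℚ K) → ℝ) → ℝ := fun u => bf B (fun i => u (Sum.inl i)) (fun i => u (Sum.inr i))
  let P : (Fin (finrank ℚ K) ⊕ Fin (finrank ℚ K) → ℝ) → ℝ := fun u => pm (rw2 B u)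
  let U : Set (Fin (finrank ℚ K) ⊕ Fin (finrank ℚ K) → ℝ) :=
    {u | ∀ σ τ : K →+* ℂ, σ ≠ τ → br (rw2 B u σ) (rw2 B u τ) ≠ 0}
  have cq1 : Continuous q1 := continuous_bf B continuous_inl continuous_inl
  have cq2 : Continuous q2 := continuous_bf B continuous_inr continuous_inr
  have cs : Continuous s := continuous_bf B continuous_inl continuous_inr
  have cP : Continuous P := continuous_pm.comp (continuous_rw2 B)
  have q1m : ∀ a b c d u, q1 (mt a b c d u) = a ^ 2 * q1 u + 2 * a * b * s u + b ^ 2 * q2 u := by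
    intro a b c d u
    show bf B (fun i => mt a b c d u (Sum.inl i)) (fun i => mt a b c d u (Sum.inl i)) = _
    rw [mt_inl, bf_comb]
  have q2m : ∀ a b c d u, q2 (mt a b c d u) = c ^ 2 * q1 u + 2 * c * d * s u + d ^ 2 * q2 u := by
    intro a b c d u
    show bf B (fun i => mt a b c d u (Sum.inr i)) (fun i => mt a b c d u (Sum.inr i)) = _
    rw [mt_inr, bf_comb]
  have sm : ∀ a b c d u, s (mt a b c d u) =
      a * c * q1 u + (a * d + b * c) * s u + b * d * q2 u := by
    intro a b c d u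
    show bf B (fun i => mt a b c d u (Sum.inl i)) (fun i => mt a b c d u (Sum.inr i)) = _
    rw [mt_inl, mt_inr, bf_comb2]
  -- the null sets
  have hcard : Fintype.card (K →+* ℂ) = finrank ℚ K := card_emb
  have hn0 : finrank ℚ K ≠ 0 := by omega
  have n1 : ∀ c : ℝ, 0 < c → volume {u | q1 u = c} = 0 := by
    intro c hc
    refine null_of_levels _ q1 cq1.measurable (fun t => t ^ 2 * c) ?_ (fun t => mt t 0 0 t)
      (fun t ht S hS => mt_null _ _ _ _ (by
        have : t * t - 0 * 0 = t * t := by ring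
        rw [this]; positivity) S hS) ?_
    · intro t ht t' ht' h
      have h3 : t ^ 2 = t' ^ 2 := mul_right_cancel₀ hc.ne' h
      exact (pow_left_inj₀ (le_of_lt ht) (le_of_lt ht') two_ne_zero).1 h3
    · intro t ht u hu
      have hu' : q1 u = c := hu
      rw [q1m, hu']
      ring
  have n2 : volume {u | P u = 1} = 0 := by
    refine null_of_levels _ P cP.measurable (fun t => t ^ (2 * finrank ℚ K)) ?_ (fun t => mt t 0 0 t)
      (fun t ht S hS => mt_null _ _ _ _ (by
        have : t * t - 0 * 0 = t * t := by ring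
        rw [this]; positivity) S hS) ?_
    · intro t ht t' ht' h
      exact (pow_left_inj₀ (le_of_lt ht) (le_of_lt ht') (by omega)).1 h
    · intro t ht u hu
      show pm (rw2 B (mt t 0 0 t u)) = t ^ (2 * finrank ℚ K)
      rw [rw2_mt, pm_gl, hcard]
      have h3 : pm (rw2 B u) = 1 := hu
      rw [h3, mul_one]
      have h4 : ((t : ℂ) * t - ((0 : ℝ) : ℂ) * ((0 : ℝ) : ℂ)) = ((t ^ 2 : ℝ) : ℂ) := by
        push_cast; ring
      rw [h4, Complex.norm_real, Real.norm_eq_abs, abs_of_pos (by positivity), ← pow_mul]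
  have n3 : volume {u | q1 u = q2 u ∧ q1 u ≠ 0} = 0 := by
    refine null_of_levels _ (fun u => q2 u / q1 u) (cq2.measurable.div cq1.measurable)
      (fun t => t ^ 2) ?_ (fun t => mt 1 0 0 t)
      (fun t ht S hS => mt_null _ _ _ _ (by
        have : 1 * t - 0 * 0 = t := by ring
        rw [this]; exact ht.ne') S hS) ?_
    · intro t ht t' ht' h
      exact (pow_left_inj₀ (le_of_lt ht) (le_of_lt ht') two_ne_zero).1 h
    · rintro t ht u ⟨hu, hu0⟩
      show q2 (mt 1 0 0 t u) / q1 (mt 1 0 0 t u) = t ^ 2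
      have a1 : q1 (mt 1 0 0 t u) = q1 u := by rw [q1m]; ring
      have a2 : q2 (mt 1 0 0 t u) = t ^ 2 * q1 u := by rw [q2m, ← hu]; ring
      rw [a1, a2, mul_div_assoc, div_self hu0, mul_one]
  have n4 : ∀ c : ℝ, volume {u | s u = c * q1 u ∧ q1 u ≠ 0} = 0 := by
    intro c
    refine null_of_levels _ (fun u => s u / q1 u) (cs.measurable.div cq1.measurable)
      (fun t => c + t) ?_ (fun t => mt 1 0 t 1)
      (fun t ht S hS => mt_null _ _ _ _ (by
        have : 1 * 1 - 0 * t = 1 := by ring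
        rw [this]; exact one_ne_zero) S hS) ?_
    · intro t _ t' _ h
      exact add_left_cancel h
    · rintro t ht u ⟨hu, hu0⟩
      show s (mt 1 0 t 1 u) / q1 (mt 1 0 t 1 u) = c + t
      have a1 : q1 (mt 1 0 t 1 u) = q1 u := by rw [q1m]; ring
      have a2 : s (mt 1 0 t 1 u) = (c + t) * q1 u := by rw [sm, hu]; ring
      rw [a1, a2, mul_div_assoc, div_self hu0, mul_one]
  -- U
  have hUc : volume Uᶜ = 0 := by
    have h3 : Uᶜ ⊆ ⋃ q : (K →+* ℂ) × (K →+* ℂ), {u | q.1 ≠ q.2 ∧
        br (rw2 B u q.1) (rw2 B u q.2) = 0} := by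
      intro u hu
      simp only [U, Set.mem_compl_iff, Set.mem_setOf_eq] at hu
      push Not at hu
      obtain ⟨σ, τ, hne, h0⟩ := hu
      exact Set.mem_iUnion.2 ⟨(σ, τ), hne, h0⟩
    refine measure_mono_null h3 (measure_iUnion_null fun q => ?_)
    by_cases hq : q.1 = q.2
    · have : {u : Fin (finrank ℚ K) ⊕ Fin (finrank ℚ K) → ℝ | q.1 ≠ q.2 ∧ br (rw2 B u q.1) (rw2 B u q.2) = 0} = ∅ := by
        ext u
        simp [hq]
      rw [this, measure_empty]
    · exact measure_mono_null (fun u hu => hu.2) (h2 B q.1 q.2 hq)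
  have hUo : IsOpen U := by
    have h3 : U = ⋂ q : (K →+* ℂ) × (K →+* ℂ), {u | q.1 ≠ q.2 →
        br (rw2 B u q.1) (rw2 B u q.2) ≠ 0} := by
      ext u
      simp only [U, Set.mem_setOf_eq, Set.mem_iInter, Prod.forall]
    rw [h3]
    refine isOpen_iInter_of_finite fun q => ?_
    by_cases hq : q.1 = q.2
    · have : {u : Fin (finrank ℚ K) ⊕ Fin (finrank ℚ K) → ℝ | q.1 ≠ q.2 → br (rw2 B u q.1) (rw2 B u q.2) ≠ 0} =
          Set.univ := by
        ext u
        simp [hq]
      rw [this]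
      exact isOpen_univ
    · have h4 : {u : Fin (finrank ℚ K) ⊕ Fin (finrank ℚ K) → ℝ | q.1 ≠ q.2 → br (rw2 B u q.1) (rw2 B u q.2) ≠ 0} =
          {u | br (rw2 B u q.1) (rw2 B u q.2) ≠ 0} := by
        ext u
        simp [hq]
      rw [h4]
      have h5 : Continuous fun u : Fin (finrank ℚ K) ⊕ Fin (finrank ℚ K) → ℝ => br (rw2 B u q.1) (rw2 B u q.2) :=
        continuous_br.comp (((continuous_apply q.1).comp (continuous_rw2 B)).prodMk
          ((continuous_apply q.2).comp (continuous_rw2 B)))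
      exact isOpen_ne_fun h5 continuous_const
  -- the normalisation
  let g : Fin (Units.rank K) → (Fin (finrank ℚ K) ⊕ Fin (finrank ℚ K) → ℝ) → ℝ := fun j =>
    U.piecewise (fun u => cc (rw2 B u) j) (fun _ => 0)
  have hg : ∀ j, Measurable (g j) := fun j =>
    (h1 hodd hn B j).measurable_piecewise continuousOn_const hUo.measurableSet
  have hgU : ∀ j, ∀ u ∈ U, g j u = cc (rw2 B u) j := fun j u hu => Set.piecewise_eq_of_mem _ _ _ hu
  have hκ : ∀ j, ∃ κ : ℝ, volume {u | g j u = κ} = 0 ∧ volume {u | g j u = κ + 1} = 0 := by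
    intro j
    have hc := Measure.countable_meas_level_set_pos
      (μ := (volume : Measure (Fin (finrank ℚ K) ⊕ Fin (finrank ℚ K) → ℝ))) (hg j)
    have hc2 := hc.union (hc.image (fun t => t - 1))
    obtain ⟨κ, hκ⟩ : ∃ κ : ℝ, κ ∉ ({t : ℝ | 0 < volume {u | g j u = t}} ∪
        (fun t => t - 1) '' {t : ℝ | 0 < volume {u | g j u = t}}) := by
      by_contra hcon
      push Not at hcon
      have h3 := (hc2.mono (fun κ _ => hcon κ : (Set.univ : Set ℝ) ⊆ _)).measure_zero
        (volume : Measure ℝ)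
      rw [Real.volume_univ] at h3
      exact ENNReal.top_ne_zero h3
    rw [Set.mem_union, not_or] at hκ
    refine ⟨κ, ?_, ?_⟩
    · by_contra h0
      exact hκ.1 (pos_iff_ne_zero.2 h0)
    · by_contra h0
      exact hκ.2 ⟨κ + 1, pos_iff_ne_zero.2 h0, by ring⟩
  choose κ hκ1 hκ2 using hκ
  refine ⟨κ, fun δ hδ => ?_⟩
  have hδ2 : 0 < δ ^ 2 := by positivity
  have hsub : closure (Dc B κ δ) \ Dm B κ δ ⊆ Uᶜ ∪ ({u | q1 u = δ ^ 2} ∪ ({u | P u = 1} ∪
      ({u | q1 u = q2 u ∧ q1 u ≠ 0} ∪ ({u | s u = 0 * q1 u ∧ q1 u ≠ 0} ∪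
      ({u | s u = (1 / 2) * q1 u ∧ q1 u ≠ 0} ∪ ((⋃ j, {u | g j u = κ j}) ∪
      (⋃ j, {u | g j u = κ j + 1}))))))) := by
    rintro u ⟨hu, hnu⟩
    by_cases hU : u ∈ U
    swap
    · exact Or.inl hU
    have c1 : δ ^ 2 ≤ q1 u := closure_minimal (s := Dc B κ δ) (t := {u | δ ^ 2 ≤ q1 u})
      (fun v hv => hv.1) (isClosed_le continuous_const cq1) hu
    have c2 : q1 u ≤ q2 u := closure_minimal (s := Dc B κ δ) (t := {u | q1 u ≤ q2 u})
      (fun v hv => hv.2.1) (isClosed_le cq1 cq2) hu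
    have c3 : 0 ≤ s u := closure_minimal (s := Dc B κ δ) (t := {u | 0 ≤ s u})
      (fun v hv => hv.2.2.1) (isClosed_le continuous_const cs) hu
    have c4 : 2 * s u ≤ q1 u := closure_minimal (s := Dc B κ δ) (t := {u | 2 * s u ≤ q1 u})
      (fun v hv => hv.2.2.2.1) (isClosed_le (continuous_const.mul cs) cq1) hu
    have c5 : P u ≤ 1 := closure_minimal (s := Dc B κ δ) (t := {u | P u ≤ 1})
      (fun v hv => hv.2.2.2.2.2.1) (isClosed_le cP continuous_const) hu
    have c6 : ∀ j, κ j ≤ cc (rw2 B u) j ∧ cc (rw2 B u) j ≤ κ j + 1 := by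
      intro j
      have h3 : ContinuousWithinAt (fun u => cc (rw2 B u) j) (Dc B κ δ) u :=
        ((h1 hodd hn B j).continuousAt (hUo.mem_nhds hU)).continuousWithinAt
      have h4 := h3.mem_closure hu (fun v hv => (show cc (rw2 B v) j ∈ Set.Icc (κ j) (κ j + 1) from
        hv.2.2.2.2.2.2 j))
      rw [isClosed_Icc.closure_eq] at h4
      exact h4
    have hq0 : q1 u ≠ 0 := by
      intro h0
      rw [h0] at c1
      linarith
    by_cases e1 : q1 u = δ ^ 2
    · exact Or.inr (Or.inl e1)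
    by_cases e2 : P u = 1
    · exact Or.inr (Or.inr (Or.inl e2))
    by_cases e3 : q1 u = q2 u
    · exact Or.inr (Or.inr (Or.inr (Or.inl ⟨e3, hq0⟩)))
    by_cases e4 : s u = 0
    · exact Or.inr (Or.inr (Or.inr (Or.inr (Or.inl ⟨by rw [e4, zero_mul], hq0⟩))))
    by_cases e5 : 2 * s u = q1 u
    · exact Or.inr (Or.inr (Or.inr (Or.inr (Or.inr (Or.inl ⟨by rw [← e5]; ring, hq0⟩)))))
    by_cases e6 : ∃ j, cc (rw2 B u) j = κ j
    · obtain ⟨j, hj⟩ := e6
      exact Or.inr (Or.inr (Or.inr (Or.inr (Or.inr (Or.inr (Or.inl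
        (Set.mem_iUnion.2 ⟨j, (hgU j u hU).trans hj⟩)))))))
    by_cases e7 : ∃ j, cc (rw2 B u) j = κ j + 1
    · obtain ⟨j, hj⟩ := e7
      exact Or.inr (Or.inr (Or.inr (Or.inr (Or.inr (Or.inr (Or.inr
        (Set.mem_iUnion.2 ⟨j, (hgU j u hU).trans hj⟩)))))))
    exfalso
    apply hnu
    push Not at e6 e7
    exact ⟨lt_of_le_of_ne c1 (Ne.symm e1), lt_of_le_of_ne c2 e3, lt_of_le_of_ne c3 (Ne.symm e4),
      lt_of_le_of_ne c4 e5, hU, lt_of_le_of_ne c5 e2, fun j =>
      ⟨lt_of_le_of_ne (c6 j).1 (Ne.symm (e6 j)), lt_of_le_of_ne (c6 j).2 (e7 j)⟩⟩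
  refine measure_mono_null hsub ?_
  refine measure_union_null hUc (measure_union_null (n1 _ hδ2) (measure_union_null n2
    (measure_union_null n3 (measure_union_null (n4 0) (measure_union_null (n4 (1 / 2))
    (measure_union_null (measure_iUnion_null hκ1) (measure_iUnion_null hκ2)))))))

end main

end Pool.Agent.Y179.KF
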