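import Pool.Agent.Y714.KF.Stm

set_option autoImplicit false
set_option linter.unusedSectionVars false

/-! KF-HB and KF-DESC. -/

namespace Pool.Agent.Y179.KF

open Pool.Agent.Y714.KF
open NumberField FractionalIdeal Module Finset
open scoped nonZeroDivisors

theorem exists_min {ι : Type} (R : Finset ι) (f : ι → ℝ) (h : ∀ r, 0 < f r) :
    ∃ c : ℝ, 0 < c ∧ ∀ r ∈ R, c ≤ f r := by
  classical
  induction R using Finset.induction_on with
  | empty => exact ⟨1, one_pos, by simp⟩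
  | insert a s ha ih =>
    obtain ⟨c, hc, hc'⟩ := ih
    refine ⟨min c (f a), lt_min hc (h a), fun r hr => ?_⟩
    rcases Finset.mem_insert.1 hr with rfl | hr
    · exact min_le_right _ _
    · exact (min_le_left _ _).trans (hc' r hr)

variable {K : Type} [Field K] [NumberField K]

theorem hb (h : S_CLS K) : S_HB K := by
  classical
  intro hodd hn
  obtain ⟨R, hR, -⟩ := h
  have hcard : Fintype.card (K →+* ℂ) = finrank ℚ K := card_emb
  obtain ⟨C, hC, hineq⟩ := ineqs (J := K →+* ℂ) (by rw [hcard]; exact hodd)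
  have h1 : ∀ r : (FI K)ˣ, ∃ c : ℝ, 0 < c ∧ ∀ P : K × K, ct P = r → Nd P → c ≤ pm (vec P) := by
    intro r
    obtain ⟨c, hc, hD⟩ := exists_index r
    refine ⟨min 1 (c ^ 2 / C), by positivity, fun P hP hNd => ?_⟩
    obtain ⟨D, hD0, hprod, -⟩ := hD P hP.le hNd
    have hpm := hNd.pm_pos (by omega)
    have h2 := (hineq (vec P) hpm).2.2.2
    rw [hprod, hcard] at h2
    have h3 : c ^ 2 ≤ (c * D) ^ 2 := by
      have hD1 : (1 : ℝ) ≤ D := by exact_mod_cast Nat.one_le_iff_ne_zero.2 hD0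
      have : c ≤ c * D := by nlinarith
      exact pow_le_pow_left₀ hc.le this 2
    have h4 : c ^ 2 / C ≤ pm (vec P) ^ (finrank ℚ K - 1) := by
      rw [div_le_iff₀ hC]
      linarith
    rcases le_total 1 (pm (vec P)) with h5 | h5
    · exact (min_le_left _ _).trans h5
    · refine (min_le_right _ _).trans (h4.trans ?_)
      exact pow_le_of_le_one hpm.le h5 (by omega)
  choose c hc hcP using h1
  have hnr : ∀ r : (FI K)ˣ, 0 < ((nm (r : FI K) : ℚ) : ℝ) := by
    intro r
    exact_mod_cast nm_pos r.ne_zero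
  obtain ⟨c0, hc0, hle⟩ := exists_min R (fun r => c r / ((nm (r : FI K) : ℚ) : ℝ) ^ 2)
    (fun r => div_pos (hc r) (pow_pos (hnr r) 2))
  refine ⟨c0, hc0, fun P hP => ?_⟩
  have hct : ct P ≠ 0 := ct_ne (hP.ind (by omega)).fst
  obtain ⟨r, hr, x, hx, hrx⟩ := hR (Units.mk0 (ct P) hct)
  rw [Units.val_mk0] at hrx
  have hP' : P = x • (x⁻¹ • P) := by rw [smul_smul, mul_inv_cancel₀ hx, one_smul]
  have hct' : ct (x⁻¹ • P) = r := by
    rw [ct_smul, hrx, ← mul_assoc, ← sp_mul, inv_mul_cancel₀ hx]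
    have : sp (1 : K) = 1 := by
      rw [sp, spanSingleton_one]
    rw [this, one_mul]
  have h5 := hcP r (x⁻¹ • P) hct' (hP.smul (inv_ne_zero hx))
  have h6 : pm (vec P) = ((nm (sp x) : ℚ) : ℝ) ^ 2 * pm (vec (x⁻¹ • P)) := by
    conv_lhs => rw [hP']
    exact pm_vec_smul _ _
  have h7 : ((nm (ct P) : ℚ) : ℝ) = ((nm (sp x) : ℚ) : ℝ) * ((nm (r : FI K) : ℚ) : ℝ) := by
    rw [hrx, nm, map_mul]
    push_cast
    rfl
  have h8 := hle r hr
  rw [le_div_iff₀ (pow_pos (hnr r) 2)] at h8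
  rw [h6, h7, mul_pow]
  have h9 : 0 ≤ ((nm (sp x) : ℚ) : ℝ) ^ 2 := by positivity
  calc c0 * (((nm (sp x) : ℚ) : ℝ) ^ 2 * ((nm (r : FI K) : ℚ) : ℝ) ^ 2) =
      ((nm (sp x) : ℚ) : ℝ) ^ 2 * (c0 * ((nm (r : FI K) : ℚ) : ℝ) ^ 2) := by ring
    _ ≤ _ := mul_le_mul_of_nonneg_left (h8.trans h5) h9

/-- a neighbour as an integral combination -/
theorem nb_gl {p : ℕ} (hp : p.Prime) (o : Option (Fin p)) : ∃ a b c d : ℚ,
    |((a : ℝ) * d - b * c)| = p ∧ a * d - b * c ≠ 0 ∧ ∀ P : K × K,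
    nb p o P = ((a : K) * P.1 + (b : K) * P.2, (c : K) * P.1 + (d : K) * P.2) := by
  have hp0 : (p : ℚ) ≠ 0 := by exact_mod_cast hp.ne_zero
  cases o with
  | none =>
    refine ⟨0, 1, p, 0, by simp, by simpa using hp0, fun P => ?_⟩
    simp [nb]
  | some r =>
    refine ⟨1, ((r : ℕ) : ℚ), 0, p, by simp, by simpa using hp0, fun P => ?_⟩
    simp [nb]

theorem desc (h : S_HB K) : S_DESC K := by
  classical
  intro hodd hn
  obtain ⟨c0, hc0, hHB⟩ := h hodd hn
  have key : ∀ N : ℕ, ∀ P : K × K, Nd P →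
      pm (vec P) < 2 ^ N * (c0 * ((nm (ct P) : ℚ) : ℝ) ^ 2) → ∃ Q : K × K,
      Red Q ∧ (∃ a b c d : ℚ, a * d - b * c ≠ 0 ∧
        Q = ((a : K) * P.1 + (b : K) * P.2, (c : K) * P.1 + (d : K) * P.2)) ∧
      pm (vec Q) * ((nm (ct P) : ℚ) : ℝ) ^ 2 ≤ pm (vec P) * ((nm (ct Q) : ℚ) : ℝ) ^ 2 := by
    intro N
    induction N with
    | zero =>
      intro P hP hlt
      rw [pow_zero, one_mul] at hlt
      exact absurd (hHB P hP) (not_le.2 hlt)
    | succ N ih =>
      intro P hP hlt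
      by_cases hred : Red P
      · refine ⟨P, hred, ⟨1, 0, 0, 1, by norm_num, by simp⟩, le_rfl⟩
      · unfold Red at hred
        push Not at hred
        obtain ⟨p, hp, hpP⟩ := hred
        obtain ⟨o, ho⟩ := exists_nb hp hpP
        obtain ⟨a, b, c, d, hdet, hdet0, hnb⟩ := nb_gl (K := K) hp o
        have hct : ct P ≠ 0 := ct_ne (hP.ind (by omega)).fst
        have hnm : 0 < nm (ct P) := nm_pos hct
        have hNd : Nd (nb p o P) := by
          rw [hnb]
          exact hP.gl hdet0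
        have hpm : pm (vec (nb p o P)) = (p : ℝ) ^ finrank ℚ K * pm (vec P) := by
          rw [hnb, pm_vec_gl, hdet]
        obtain ⟨m, hm, hmn⟩ := exists_pow hp (I := ct P) (J := ct (nb p o P)) hct (by
          rw [ct_nb, ← sup_eq_add]
          exact le_sup_left) (by
          rw [ct_nb, ← sup_eq_add]
          refine sup_le ?_ ?_
          · calc sp (p : K) * ct P ≤ 1 * ct P := by
                  gcongr
                  exact sp_natCast_le_one p
              _ = ct P := one_mul _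
          · rw [sp_le]
            have hle : nb p o P = ((a : K) * P.1 + (b : K) * P.2, (c : K) * P.1 + (d : K) * P.2) :=
              hnb P
            cases o with
            | none => exact snd_mem_ct P
            | some r =>
              exact (ct P : Submodule (𝓞 K) K).add_mem (fst_mem_ct P)
                (natCast_mul_mem _ (snd_mem_ct P)))
        have hp1 : (1 : ℚ) < p := by exact_mod_cast hp.one_lt
        have hle : finrank ℚ K ≤ 2 * m := by
          rw [hmn, mul_pow, ← pow_mul] at ho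
          have h1 : (p : ℚ) ^ finrank ℚ K ≤ (p : ℚ) ^ (m * 2) :=
            le_of_mul_le_mul_right ho (by positivity)
          have := (pow_le_pow_iff_right₀ hp1).1 h1
          omega
        have hle2 : finrank ℚ K + 1 ≤ 2 * m := by
          obtain ⟨t, ht⟩ := hodd
          omega
        have hp1' : (1 : ℝ) ≤ p := by exact_mod_cast hp.one_lt.le
        have hp2 : (2 : ℝ) ≤ p := by exact_mod_cast hp.two_le
        have hpow : 2 * (p : ℝ) ^ finrank ℚ K ≤ (p : ℝ) ^ (2 * m) := by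
          calc 2 * (p : ℝ) ^ finrank ℚ K ≤ (p : ℝ) * (p : ℝ) ^ finrank ℚ K := by gcongr
            _ = (p : ℝ) ^ (finrank ℚ K + 1) := by ring
            _ ≤ _ := pow_le_pow_right₀ hp1' hle2
        have hnmR : ((nm (ct (nb p o P)) : ℚ) : ℝ) ^ 2 =
            (p : ℝ) ^ (2 * m) * ((nm (ct P) : ℚ) : ℝ) ^ 2 := by
          rw [hmn]
          push_cast
          ring
        have hnmP : (0 : ℝ) < ((nm (ct P) : ℚ) : ℝ) ^ 2 := by
          have : (0 : ℝ) < ((nm (ct P) : ℚ) : ℝ) := by exact_mod_cast hnm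
          positivity
        have hpn : (0 : ℝ) < (p : ℝ) ^ finrank ℚ K := by positivity
        obtain ⟨Q, hQ, ⟨a', b', c', d', hdet', hQ'⟩, hfin⟩ := ih (nb p o P) hNd (by
          rw [hpm, hnmR]
          calc (p : ℝ) ^ finrank ℚ K * pm (vec P) <
              (p : ℝ) ^ finrank ℚ K * (2 ^ (N + 1) * (c0 * ((nm (ct P) : ℚ) : ℝ) ^ 2)) := by
                gcongr
            _ = 2 ^ N * (c0 * ((2 * (p : ℝ) ^ finrank ℚ K) * ((nm (ct P) : ℚ) : ℝ) ^ 2)) := by ring
            _ ≤ 2 ^ N * (c0 * ((p : ℝ) ^ (2 * m) * ((nm (ct P) : ℚ) : ℝ) ^ 2)) := by gcongr)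
        refine ⟨Q, hQ, ⟨a' * a + b' * c, a' * b + b' * d, c' * a + d' * c, c' * b + d' * d,
          ?_, ?_⟩, ?_⟩
        · have : (a' * a + b' * c) * (c' * b + d' * d) - (a' * b + b' * d) * (c' * a + d' * c) =
              (a' * d' - b' * c') * (a * d - b * c) := by ring
          rw [this]
          exact mul_ne_zero hdet' hdet0
        · rw [hQ', hnb]
          refine Prod.ext ?_ ?_
          · simp only []
            push_cast
            ring
          · simp only []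
            push_cast
            ring
        · rw [hpm, hnmR] at hfin
          have hpm0 := pm_nonneg (vec P)
          have h1 : (p : ℝ) ^ (2 * m) * (pm (vec Q) * ((nm (ct P) : ℚ) : ℝ) ^ 2) ≤
              (p : ℝ) ^ (2 * m) * (pm (vec P) * ((nm (ct Q) : ℚ) : ℝ) ^ 2) := by
            calc (p : ℝ) ^ (2 * m) * (pm (vec Q) * ((nm (ct P) : ℚ) : ℝ) ^ 2) =
                pm (vec Q) * ((p : ℝ) ^ (2 * m) * ((nm (ct P) : ℚ) : ℝ) ^ 2) := by ring
              _ ≤ (p : ℝ) ^ finrank ℚ K * pm (vec P) * ((nm (ct Q) : ℚ) : ℝ) ^ 2 := hfin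
              _ ≤ (p : ℝ) ^ (2 * m) * pm (vec P) * ((nm (ct Q) : ℚ) : ℝ) ^ 2 := by
                  gcongr
              _ = _ := by ring
          exact le_of_mul_le_mul_left h1 (by positivity)
  intro P hP
  have hnm : (0 : ℝ) < c0 * ((nm (ct P) : ℚ) : ℝ) ^ 2 := by
    have h1 : 0 < nm (ct P) := nm_pos (ct_ne (hP.ind (by omega)).fst)
    have : (0 : ℝ) < ((nm (ct P) : ℚ) : ℝ) := by exact_mod_cast h1
    positivity
  obtain ⟨N, hN⟩ := pow_unbounded_of_one_lt (pm (vec P) / (c0 * ((nm (ct P) : ℚ) : ℝ) ^ 2))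
    (one_lt_two)
  refine key N P hP ?_
  rwa [div_lt_iff₀ hnm] at hN

end Pool.Agent.Y179.KF
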